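import Pool.Agent.Helper54.PT.DefsE
import Pool.Agent.Helper75.TW.B16

/-!
# Quadratic twists: module D7 (from the first moments and the parity theorem to the proportion)
-/

set_option autoImplicit false

namespace Pool.Agent.Helper54.PT

open Polynomial Finset Filter Topology Module

section Abstract

variable {σ : Type} [Fintype σ] [DecidableEq σ] {q : ℕ} {J : Type} [Fintype J] [DecidableEq J]

omit [Fintype σ] [DecidableEq σ] in
theorem d7_kap_none (X : PData 2 σ) (D : Finset X.P) (n : ℕ) (h : D ∈ X.sq n) :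
    kap X D none = (n : ZMod 2) := by
  rw [X.mem_sq] at h
  rw [← h]
  simp only [kap, PData.dg, PData.xx, Nat.cast_sum]

theorem d7_card_even (c : ZMod 2) (hσ : 0 < Fintype.card σ) :
    2 * (univ.filter fun κ : σ → ZMod 2 => c + ∑ r, κ r = 0).card = 2 ^ Fintype.card σ := by
  obtain ⟨r₀⟩ := Fintype.card_pos_iff.1 hσ
  have h1 : (univ.filter fun κ : σ → ZMod 2 => c + ∑ r, κ r = 0).card +
      (univ.filter fun κ : σ → ZMod 2 => ¬ (c + ∑ r, κ r = 0)).card = 2 ^ Fintype.card σ := by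
    rw [Finset.card_filter_add_card_filter_not, Finset.card_univ, Fintype.card_fun, ZMod.card]
  have h2 : (univ.filter fun κ : σ → ZMod 2 => c + ∑ r, κ r = 0).card =
      (univ.filter fun κ : σ → ZMod 2 => ¬ (c + ∑ r, κ r = 0)).card := by
    have hz : ∀ z : ZMod 2, z + 1 = 0 ↔ ¬ z = 0 := by decide
    have hs : ∀ κ : σ → ZMod 2, c + ∑ r, (κ + Pi.single r₀ 1 : σ → ZMod 2) r = (c + ∑ r, κ r) + 1 := by
      intro κ
      simp only [Pi.add_apply, sum_add_distrib]
      rw [show ∑ r, (Pi.single r₀ (1 : ZMod 2) : σ → ZMod 2) r = 1 by simp [Finset.sum_pi_single']]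
      ring
    have hinv : ∀ κ : σ → ZMod 2, κ + Pi.single r₀ 1 + Pi.single r₀ 1 = κ := by
      intro κ
      rw [add_assoc]
      have : (Pi.single r₀ (1 : ZMod 2) : σ → ZMod 2) + Pi.single r₀ 1 = 0 := by
        rw [← Pi.single_add]
        have : (1 : ZMod 2) + 1 = 0 := by decide
        rw [this, Pi.single_zero]
      rw [this, add_zero]
    refine Finset.card_nbij' (fun κ => κ + Pi.single r₀ 1) (fun κ => κ + Pi.single r₀ 1) ?_ ?_ ?_ ?_
    · intro κ hκ
      simp only [coe_filter, mem_univ, true_and, Set.mem_setOf_eq] at hκ ⊢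
      rw [hs, hz, not_not]
      exact hκ
    · intro κ hκ
      simp only [coe_filter, mem_univ, true_and, Set.mem_setOf_eq] at hκ ⊢
      rw [hs, hz]
      exact hκ
    · intro κ _
      exact hinv κ
    · intro κ _
      exact hinv κ
  omega

open Classical in
/-- the size of a formal Selmer group of even rank with non torsion elements -/
theorem d7_four (X : PData 2 σ) (τ : (J → ZMod 2) →+ (J → Option σ → ZMod 2))
    (H : (Option σ → J → ZMod 2) → (Option σ → J → ZMod 2) → (Option σ → ZMod 2) → Prop)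
    (hJ : Even (Fintype.card J)) (D : Finset X.P) (hD : D.Nonempty)
    (hsub : ∀ x ∈ GD X τ H D, ∀ y ∈ GD X τ H D, x + y ∈ GD X τ H D)
    (htor : ∀ v : J → ZMod 2, tor X τ D v ∈ GD X τ H D) (s : ℕ)
    (hs : (GD X τ H D).card = 2 ^ s) (hs2 : (s : ZMod 2) = 0)
    (hnot : ¬ ∀ x ∈ GD X τ H D, ∃ v, x = tor X τ D v) :
    2 ^ Fintype.card J * 4 ≤ (GD X τ H D).card := by
  have : Fact (Nat.Prime 2) := ⟨Nat.prime_two⟩
  have h1 := (b16_card X τ H D hD hsub htor).2 hnot
  rw [hs] at h1 ⊢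
  have h2 : Fintype.card J + 1 ≤ s := (Nat.pow_le_pow_iff_right (by norm_num)).1 h1
  have h3 : Even s := (ZMod.natCast_eq_zero_iff_even).1 hs2
  have h4 : Fintype.card J + 2 ≤ s := by
    rcases h3 with ⟨a, ha⟩
    rcases hJ with ⟨b, hb⟩
    omega
  calc 2 ^ Fintype.card J * 4 = 2 ^ (Fintype.card J + 2) := by rw [pow_add]; norm_num
    _ ≤ 2 ^ s := Nat.pow_le_pow_right (by norm_num) h4

open Classical in
/-- D7: from the first moments and the parity theorem to the proportion -/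
theorem proportion2 (X : PData 2 σ) (τ : (J → ZMod 2) →+ (J → Option σ → ZMod 2))
    (H : (Option σ → J → ZMod 2) → (Option σ → J → ZMod 2) → (Option σ → ZMod 2) → Prop)
    (hX : X.Inputs q) (hJ : Even (Fintype.card J)) (hσ : 0 < Fintype.card σ)
    (hsub : ∀ D : Finset X.P, ∀ x ∈ GD X τ H D, ∀ y ∈ GD X τ H D, x + y ∈ GD X τ H D)
    (htor : ∀ (D : Finset X.P) (v : J → ZMod 2), tor X τ D v ∈ GD X τ H D)
    (hmom : ∀ (κ₀ : σ → ZMod 2) (ε : ℝ), 0 < ε → ∀ᶠ n : ℕ in atTop,
      (∑ D ∈ X.sq n, ((GD X τ (Hk H κ₀) D).card : ℝ)) ≤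
        (3 * (2 : ℝ) ^ Fintype.card J / 2 ^ Fintype.card σ + ε) * (X.sq n).card)
    (hcls : ∀ (κ₀ : σ → ZMod 2) (ε : ℝ), 0 < ε → ∀ᶠ n : ℕ in atTop,
      |(((X.sq n).filter fun D => ∀ r, kap X D (some r) = κ₀ r).card : ℝ) -
        ((X.sq n).card : ℝ) / (2 : ℝ) ^ Fintype.card σ| ≤ ε * (X.sq n).card)
    (hpar : ∃ c : ZMod 2 → ZMod 2, ∀ D : Finset X.P, ∃ s : ℕ, (GD X τ H D).card = 2 ^ s ∧
      (s : ZMod 2) = c (kap X D none) + ∑ r, kap X D (some r))
    (ε : ℝ) (hε : 0 < ε) :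
    ∀ᶠ n : ℕ in atTop, ((1 : ℝ) / 6 - ε) * (X.sq n).card ≤
      ((X.sq n).filter fun D => ∀ x ∈ GD X τ H D, ∃ v, x = tor X τ D v).card := by
  have : Fact (Nat.Prime 2) := ⟨Nat.prime_two⟩
  obtain ⟨c, hc⟩ := hpar
  set S : ℝ := (2 : ℝ) ^ Fintype.card σ with hS
  set L : ℝ := (2 : ℝ) ^ Fintype.card J with hL
  have hS0 : 0 < S := by positivity
  have hL0 : 0 < L := by positivity
  have hL1 : 1 ≤ L := one_le_pow₀ (by norm_num)
  set δ : ℝ := ε / S with hδ
  have hδ0 : 0 < δ := by positivity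
  have h1 : ∀ᶠ n : ℕ in atTop, ∀ κ₀ : σ → ZMod 2,
      (∑ D ∈ X.sq n, ((GD X τ (Hk H κ₀) D).card : ℝ)) ≤ (3 * L / S + δ) * (X.sq n).card :=
    eventually_all.2 fun κ₀ => hmom κ₀ δ hδ0
  have h2 : ∀ᶠ n : ℕ in atTop, ∀ κ₀ : σ → ZMod 2,
      |(((X.sq n).filter fun D => ∀ r, kap X D (some r) = κ₀ r).card : ℝ) -
        ((X.sq n).card : ℝ) / S| ≤ δ * (X.sq n).card :=
    eventually_all.2 fun κ₀ => hcls κ₀ δ hδ0
  filter_upwards [h1, h2, eventually_ge_atTop 1] with n hn1 hn2 hn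
  set N : ℝ := ((X.sq n).card : ℝ) with hN
  have hN0 : 0 ≤ N := Nat.cast_nonneg _
  have hne : ∀ D ∈ X.sq n, D.Nonempty := by
    intro D hD
    rw [X.mem_sq] at hD
    rw [Finset.nonempty_iff_ne_empty]
    rintro rfl
    simp [PData.dg] at hD
    omega
  -- the even classes
  set E : Finset (σ → ZMod 2) := univ.filter fun κ : σ → ZMod 2 => c (n : ZMod 2) + ∑ r, κ r = 0
    with hE
  have hEc : 2 * (E.card : ℝ) = S := by
    have := d7_card_even (σ := σ) (c (n : ZMod 2)) hσ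
    rw [hS]
    exact_mod_cast this
  -- the classes
  set C : (σ → ZMod 2) → Finset (Finset X.P) := fun κ =>
    (X.sq n).filter fun D => ∀ r, kap X D (some r) = κ r with hC
  set G : Finset (Finset X.P) :=
    (X.sq n).filter fun D => ∀ x ∈ GD X τ H D, ∃ v, x = tor X τ D v with hG
  set Z : (σ → ZMod 2) → Finset (Finset X.P) := fun κ =>
    (C κ).filter fun D => ∀ x ∈ GD X τ H D, ∃ v, x = tor X τ D v with hZ
  have key : ∀ κ ∈ E, (1 / (3 * S) - 2 * δ) * N ≤ ((Z κ).card : ℝ) := by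
    intro κ hκ
    have hκ2 : c (n : ZMod 2) + ∑ r, κ r = 0 := by
      rw [hE, mem_filter] at hκ
      exact hκ.2
    have hsplit : ((Z κ).card : ℝ) +
        (((C κ).filter fun D => ¬ ∀ x ∈ GD X τ H D, ∃ v, x = tor X τ D v).card : ℝ) =
          ((C κ).card : ℝ) := by
      exact_mod_cast Finset.card_filter_add_card_filter_not (s := C κ)
        (fun D => ∀ x ∈ GD X τ H D, ∃ v, x = tor X τ D v)
    set B : Finset (Finset X.P) :=
      (C κ).filter fun D => ¬ ∀ x ∈ GD X τ H D, ∃ v, x = tor X τ D v with hB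
    have hGDeq : ∀ D ∈ C κ, GD X τ (Hk H κ) D = GD X τ H D := by
      intro D hD
      have hD2 : ∀ r, kap X D (some r) = κ r := (mem_filter.1 hD).2
      ext x
      constructor
      · intro h
        have h' := (mem_filter.1 h).2
        exact mem_filter.2 ⟨mem_univ _, h'.1.1, h'.2⟩
      · intro h
        have h' := (mem_filter.1 h).2
        exact mem_filter.2 ⟨mem_univ _, ⟨h'.1, hD2⟩, h'.2⟩
    have hsum : (∑ D ∈ C κ, ((GD X τ H D).card : ℝ)) ≤
        ∑ D ∈ X.sq n, ((GD X τ (Hk H κ) D).card : ℝ) := by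
      rw [show (∑ D ∈ C κ, ((GD X τ H D).card : ℝ)) =
        ∑ D ∈ C κ, ((GD X τ (Hk H κ) D).card : ℝ) from
        sum_congr rfl fun D hD => by rw [hGDeq D hD]]
      exact sum_le_sum_of_subset_of_nonneg (filter_subset _ _) fun _ _ _ => Nat.cast_nonneg _
    have hsum2 : (∑ D ∈ C κ, ((GD X τ H D).card : ℝ)) =
        (∑ D ∈ Z κ, ((GD X τ H D).card : ℝ)) + ∑ D ∈ B, ((GD X τ H D).card : ℝ) :=
      (Finset.sum_filter_add_sum_filter_not (C κ) _ _).symm
    have hg : L * (Z κ).card ≤ ∑ D ∈ Z κ, ((GD X τ H D).card : ℝ) := by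
      have : ∀ D ∈ Z κ, L ≤ ((GD X τ H D).card : ℝ) := by
        intro D hD
        have hDs : D ∈ X.sq n := (mem_filter.1 (mem_filter.1 hD).1).1
        have := (b16_card X τ H D (hne D hDs) (hsub D) (htor D)).1
        rw [hL]
        exact_mod_cast this
      have h2 := Finset.card_nsmul_le_sum (Z κ) _ L this
      rw [nsmul_eq_mul] at h2
      linarith
    have hb : L * 4 * B.card ≤ ∑ D ∈ B, ((GD X τ H D).card : ℝ) := by
      have : ∀ D ∈ B, L * 4 ≤ ((GD X τ H D).card : ℝ) := by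
        intro D hD
        have hDC : D ∈ C κ := (mem_filter.1 hD).1
        have hDs : D ∈ X.sq n := (mem_filter.1 hDC).1
        have hD2 : ∀ r, kap X D (some r) = κ r := (mem_filter.1 hDC).2
        obtain ⟨s, hs1, hs2⟩ := hc D
        have hs3 : (s : ZMod 2) = 0 := by
          rw [hs2, d7_kap_none X D n hDs, sum_congr rfl fun r _ => hD2 r]
          exact hκ2
        have := d7_four X τ H hJ D (hne D hDs) (hsub D) (htor D) s hs1 hs3 (mem_filter.1 hD).2
        rw [hL]
        exact_mod_cast this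
      have h2 := Finset.card_nsmul_le_sum B _ (L * 4) this
      rw [nsmul_eq_mul] at h2
      linarith
    have h3 := hn1 κ
    have h4 : N / S - δ * N ≤ ((C κ).card : ℝ) := by
      have := (abs_le.1 (hn2 κ)).1
      linarith
    have h5 : L * (Z κ).card + L * 4 * B.card ≤ (3 * L / S + δ) * N := by linarith
    have h6 : (3 * L / S + δ) * N ≤ L * ((3 / S + δ) * N) := by
      have e1 : L * ((3 / S + δ) * N) = (3 * L / S + L * δ) * N := by ring
      rw [e1]
      have : δ ≤ L * δ := by nlinarith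
      exact mul_le_mul_of_nonneg_right (by linarith) hN0
    have h7 : ((Z κ).card : ℝ) + 4 * B.card ≤ (3 / S + δ) * N := by
      have : L * (((Z κ).card : ℝ) + 4 * B.card) ≤ L * ((3 / S + δ) * N) := by
        have e : L * (((Z κ).card : ℝ) + 4 * B.card) = L * (Z κ).card + L * 4 * B.card := by ring
        rw [e]
        linarith
      exact le_of_mul_le_mul_left this hL0
    have h8 : (B.card : ℝ) = (C κ).card - (Z κ).card := by linarith
    rw [h8] at h7
    have h9 : 4 * (N / S - δ * N) - (3 / S + δ) * N ≤ 3 * ((Z κ).card : ℝ) := by linarith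
    have h10 : 4 * (N / S - δ * N) - (3 / S + δ) * N = N / S - 5 * δ * N := by
      field_simp
      ring
    rw [h10] at h9
    have h11 : (1 / (3 * S) - 2 * δ) * N = (N / S - 6 * δ * N) / 3 := by
      field_simp
      ring
    rw [h11, div_le_iff₀ (by norm_num)]
    nlinarith [mul_nonneg hδ0.le hN0]
  -- the sum over the even classes
  have hdisj : (∑ κ ∈ E, (Z κ).card) ≤ G.card := by
    rw [← card_biUnion]
    · apply card_le_card
      intro D hD
      obtain ⟨κ, _, hκ⟩ := mem_biUnion.1 hD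
      exact mem_filter.2 ⟨(mem_filter.1 (mem_filter.1 hκ).1).1, (mem_filter.1 hκ).2⟩
    · intro κ _ κ' _ hne'
      rw [Function.onFun, Finset.disjoint_left]
      intro D hD hD'
      apply hne'
      funext r
      rw [← (mem_filter.1 (mem_filter.1 hD).1).2 r, ← (mem_filter.1 (mem_filter.1 hD').1).2 r]
  have hfin : (E.card : ℝ) * ((1 / (3 * S) - 2 * δ) * N) ≤ G.card := by
    calc (E.card : ℝ) * ((1 / (3 * S) - 2 * δ) * N) = E.card • ((1 / (3 * S) - 2 * δ) * N) := by
          rw [nsmul_eq_mul]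
      _ ≤ ∑ κ ∈ E, ((Z κ).card : ℝ) := Finset.card_nsmul_le_sum E _ _ key
      _ ≤ G.card := by exact_mod_cast hdisj
  have e1 : (E.card : ℝ) = S / 2 := by linarith
  rw [e1] at hfin
  have e2 : S / 2 * ((1 / (3 * S) - 2 * δ) * N) = (1 / 6 - ε) * N := by
    rw [hδ]
    field_simp
    ring
  rw [e2] at hfin
  exact hfin

end Abstract

end Pool.Agent.Helper54.PT
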