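import Pool.Agent.Helper54.PT.Defs

/-! Module B1B2 of MP_1d384c_nt (helper17): sums of nonnegative multiplicative functions over
squarefree elements. -/

set_option autoImplicit false

namespace Pool.Agent.Helper54.PT

open Finset Filter Topology

namespace B1B2

section

variable {ℓ : ℕ} {σ : Type} (X : PData ℓ σ)

/-- the weighted sum over squarefree elements of degree `n` -/
def S (h : X.P → ℝ) (n : ℕ) : ℝ := ∑ D ∈ X.sq n, ∏ p ∈ D, h p

theorem S_nonneg (h : X.P → ℝ) (h0 : ∀ p, 0 ≤ h p) (n : ℕ) : 0 ≤ S X h n :=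
  sum_nonneg fun _ _ => prod_nonneg fun p _ => h0 p

/-- the primes of degree less than `n` -/
def below (n : ℕ) : Finset X.P := (range n).biUnion X.pr

theorem mem_below {n : ℕ} {p : X.P} : p ∈ below X n ↔ X.deg p < n := by
  rw [below, mem_biUnion]
  constructor
  · rintro ⟨k, hk, hp⟩
    rw [(X.mem_pr k p).1 hp]
    exact mem_range.1 hk
  · intro h
    exact ⟨X.deg p, mem_range.2 h, (X.mem_pr _ p).2 rfl⟩

theorem sum_below (F : X.P → ℝ) (n : ℕ) :
    ∑ p ∈ below X n, F p = ∑ k ∈ range n, ∑ p ∈ X.pr k, F p := by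
  rw [below, sum_biUnion]
  intro a _ b _ hab
  change Disjoint (X.pr a) (X.pr b)
  rw [disjoint_left]
  intro p hp hp'
  exact hab (((X.mem_pr a p).1 hp).symm.trans ((X.mem_pr b p).1 hp'))

/-- the truncated Dirichlet series is bounded by the Euler product -/
theorem sum_le_exp (h : X.P → ℝ) (h0 : ∀ p, 0 ≤ h p) {q : ℕ} (hq : 1 ≤ q) (N : ℕ) :
    ∑ j ∈ range N, S X h j / (q : ℝ) ^ j ≤
      Real.exp (∑ k ∈ range N, (∑ p ∈ X.pr k, h p) / (q : ℝ) ^ k) := by
  classical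
  have hq0 : (0 : ℝ) < q := by exact_mod_cast hq
  have h1 : ∀ j, S X h j / (q : ℝ) ^ j = ∑ D ∈ X.sq j, ∏ p ∈ D, (h p / (q : ℝ) ^ X.deg p) := by
    intro j
    rw [S, sum_div]
    refine sum_congr rfl fun D hD => ?_
    rw [prod_div_distrib, prod_pow_eq_pow_sum]
    congr 2
    exact (X.mem_sq.1 hD).symm
  have h2 : ∑ j ∈ range N, S X h j / (q : ℝ) ^ j =
      ∑ D ∈ (range N).biUnion X.sq, ∏ p ∈ D, (h p / (q : ℝ) ^ X.deg p) := by
    rw [sum_biUnion]
    · exact sum_congr rfl fun j _ => h1 j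
    · intro a _ b _ hab
      change Disjoint (X.sq a) (X.sq b)
      rw [disjoint_left]
      intro D hD hD'
      exact hab ((X.mem_sq.1 hD).symm.trans (X.mem_sq.1 hD'))
  have h3 : (range N).biUnion X.sq ⊆ (below X N).powerset := by
    intro D hD
    rw [mem_biUnion] at hD
    obtain ⟨j, hj, hDj⟩ := hD
    rw [mem_powerset]
    intro p hp
    rw [mem_below]
    have h4 : X.deg p ≤ X.dg D := single_le_sum (f := X.deg) (fun _ _ => Nat.zero_le _) hp
    rw [X.mem_sq.1 hDj] at h4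
    exact lt_of_le_of_lt h4 (mem_range.1 hj)
  have hnn : ∀ p, 0 ≤ h p / (q : ℝ) ^ X.deg p := fun p => div_nonneg (h0 p) (by positivity)
  calc ∑ j ∈ range N, S X h j / (q : ℝ) ^ j
      = ∑ D ∈ (range N).biUnion X.sq, ∏ p ∈ D, (h p / (q : ℝ) ^ X.deg p) := h2
    _ ≤ ∑ D ∈ (below X N).powerset, ∏ p ∈ D, (h p / (q : ℝ) ^ X.deg p) :=
        sum_le_sum_of_subset_of_nonneg h3 fun D _ _ => prod_nonneg fun p _ => hnn p
    _ = ∏ p ∈ below X N, (1 + h p / (q : ℝ) ^ X.deg p) := (prod_one_add _).symm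
    _ ≤ ∏ p ∈ below X N, Real.exp (h p / (q : ℝ) ^ X.deg p) := by
        refine prod_le_prod (fun p _ => by linarith [hnn p]) fun p _ => ?_
        rw [add_comm]
        exact Real.add_one_le_exp _
    _ = Real.exp (∑ p ∈ below X N, h p / (q : ℝ) ^ X.deg p) := (Real.exp_sum _ _).symm
    _ = Real.exp (∑ k ∈ range N, (∑ p ∈ X.pr k, h p) / (q : ℝ) ^ k) := by
        rw [sum_below]
        congr 1
        refine sum_congr rfl fun k _ => ?_
        rw [sum_div]
        exact sum_congr rfl fun p hp => by rw [(X.mem_pr k p).1 hp]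

/-- removing one prime -/
theorem sum_filter_le (h : X.P → ℝ) (h0 : ∀ p, 0 ≤ h p) (n : ℕ) (p : X.P) :
    ∑ D ∈ (X.sq n).filter (fun D => p ∈ D), ∏ x ∈ D, h x ≤ h p * S X h (n - X.deg p) := by
  classical
  have h1 : ∀ D ∈ (X.sq n).filter (fun D => p ∈ D),
      ∏ x ∈ D, h x = h p * ∏ x ∈ D.erase p, h x := by
    intro D hD
    rw [mem_filter] at hD
    exact (mul_prod_erase D h hD.2).symm
  rw [sum_congr rfl h1, ← mul_sum]
  refine mul_le_mul_of_nonneg_left ?_ (h0 p)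
  have h2 : ∑ D ∈ (X.sq n).filter (fun D => p ∈ D), ∏ x ∈ D.erase p, h x
      = ∑ D' ∈ ((X.sq n).filter (fun D => p ∈ D)).image (fun D => D.erase p), ∏ x ∈ D', h x := by
    rw [sum_image]
    intro D hD D' hD' hDD
    rw [mem_coe, mem_filter] at hD hD'
    have := congrArg (insert p) hDD
    simpa only [insert_erase hD.2, insert_erase hD'.2] using this
  rw [h2, S]
  refine sum_le_sum_of_subset_of_nonneg ?_ fun D _ _ => prod_nonneg fun x _ => h0 x
  intro D' hD'
  rw [mem_image] at hD'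
  obtain ⟨D, hD, rfl⟩ := hD'
  rw [mem_filter] at hD
  rw [X.mem_sq]
  have h3 : X.deg p + X.dg (D.erase p) = X.dg D := add_sum_erase D X.deg hD.2
  have h4 := X.mem_sq.1 hD.1
  omega

/-- the recurrence inequality -/
theorem rec_le (h : X.P → ℝ) (h0 : ∀ p, 0 ≤ h p) (n : ℕ) :
    n * S X h n ≤ ∑ k ∈ range (n + 1), ∑ p ∈ X.pr k, (k : ℝ) * (h p * S X h (n - k)) := by
  classical
  have h1 : (n : ℝ) * S X h n =
      ∑ D ∈ X.sq n, ∑ p ∈ D, (X.deg p : ℝ) * ∏ x ∈ D, h x := by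
    rw [S, mul_sum]
    refine sum_congr rfl fun D hD => ?_
    rw [← sum_mul]
    congr 1
    have := X.mem_sq.1 hD
    rw [← this, PData.dg]
    push_cast
    rfl
  have h2 : ∑ D ∈ X.sq n, ∑ p ∈ D, (X.deg p : ℝ) * ∏ x ∈ D, h x =
      ∑ p ∈ below X (n + 1), ∑ D ∈ (X.sq n).filter (fun D => p ∈ D),
        (X.deg p : ℝ) * ∏ x ∈ D, h x := by
    refine sum_comm' ?_
    intro D p
    rw [mem_filter, mem_below]
    constructor
    · rintro ⟨hD, hp⟩
      refine ⟨⟨hD, hp⟩, ?_⟩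
      have h4 : X.deg p ≤ X.dg D := single_le_sum (f := X.deg) (fun _ _ => Nat.zero_le _) hp
      rw [X.mem_sq.1 hD] at h4
      omega
    · rintro ⟨⟨hD, hp⟩, -⟩
      exact ⟨hD, hp⟩
  rw [h1, h2, sum_below]
  refine sum_le_sum fun k _ => sum_le_sum fun p hp => ?_
  rw [← mul_sum, (X.mem_pr k p).1 hp]
  refine mul_le_mul_of_nonneg_left ?_ (Nat.cast_nonneg k)
  have := sum_filter_le X h h0 n p
  rwa [(X.mem_pr k p).1 hp] at this

theorem mult_le {q : ℕ} (hpnt : ∀ k, k * (X.pr k).card ≤ q ^ k) (hq : 2 ≤ q) (h : X.P → ℝ)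
    (H : ℝ) (hH0 : 0 ≤ H) (h0 : ∀ p, 0 ≤ h p) (hH : ∀ p, h p ≤ H) (n : ℕ) :
    n * S X h n ≤
      H * (q : ℝ) ^ n * Real.exp (∑ k ∈ range n, (∑ p ∈ X.pr k, h p) / (q : ℝ) ^ k) := by
  have hq0 : (0 : ℝ) < q := by
    have : 0 < q := by omega
    exact_mod_cast this
  calc n * S X h n
      ≤ ∑ k ∈ range (n + 1), ∑ p ∈ X.pr k, (k : ℝ) * (h p * S X h (n - k)) :=
        rec_le X h h0 n
    _ = ∑ j ∈ range n, ∑ p ∈ X.pr (j + 1), ((j + 1 : ℕ) : ℝ) * (h p * S X h (n - (j + 1))) := by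
        rw [sum_range_succ']
        simp
    _ ≤ ∑ j ∈ range n, (q : ℝ) ^ (j + 1) * H * S X h (n - (j + 1)) := by
        refine sum_le_sum fun j _ => ?_
        calc ∑ p ∈ X.pr (j + 1), ((j + 1 : ℕ) : ℝ) * (h p * S X h (n - (j + 1)))
            ≤ ∑ p ∈ X.pr (j + 1), ((j + 1 : ℕ) : ℝ) * (H * S X h (n - (j + 1))) := by
              refine sum_le_sum fun p _ => ?_
              exact mul_le_mul_of_nonneg_left
                (mul_le_mul_of_nonneg_right (hH p) (S_nonneg X h h0 _)) (Nat.cast_nonneg _)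
          _ = (((j + 1) * (X.pr (j + 1)).card : ℕ) : ℝ) * (H * S X h (n - (j + 1))) := by
              rw [sum_const, nsmul_eq_mul]
              push_cast
              ring
          _ ≤ (q : ℝ) ^ (j + 1) * (H * S X h (n - (j + 1))) := by
              refine mul_le_mul_of_nonneg_right ?_ (mul_nonneg hH0 (S_nonneg X h h0 _))
              exact_mod_cast hpnt (j + 1)
          _ = (q : ℝ) ^ (j + 1) * H * S X h (n - (j + 1)) := by ring
    _ = ∑ j ∈ range n, (q : ℝ) ^ (n - j) * H * S X h j := by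
        rw [← sum_range_reflect]
        refine sum_congr rfl fun j hj => ?_
        have hj' := mem_range.1 hj
        have e1 : n - 1 - j + 1 = n - j := by omega
        have e2 : n - (n - j) = j := by omega
        rw [e1, e2]
    _ = H * (q : ℝ) ^ n * ∑ j ∈ range n, S X h j / (q : ℝ) ^ j := by
        rw [mul_sum]
        refine sum_congr rfl fun j hj => ?_
        have hj' := mem_range.1 hj
        have e1 : (q : ℝ) ^ n = (q : ℝ) ^ (n - j) * (q : ℝ) ^ j := by
          rw [← pow_add]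
          congr 1
          omega
        rw [e1]
        field_simp
    _ ≤ _ := by
        refine mul_le_mul_of_nonneg_left (sum_le_exp X h h0 (by omega) n) ?_
        positivity

theorem pr_zero : X.pr 0 = ∅ := by
  rw [Finset.eq_empty_iff_forall_notMem]
  intro p hp
  have h1 := (X.mem_pr 0 p).1 hp
  have h2 := X.deg_pos p
  omega

/-- the sum of the prime densities is logarithmic -/
theorem pr_sum_le {q : ℕ} (hpnt : ∀ k, k * (X.pr k).card ≤ q ^ k) (hq : 2 ≤ q) (n : ℕ) :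
    ∑ k ∈ range (n + 1), ((X.pr k).card : ℝ) / (q : ℝ) ^ k ≤ 1 + Real.log (n + 1) := by
  have hq0 : (0 : ℝ) < q := by
    have : 0 < q := by omega
    exact_mod_cast this
  have h1 : ∑ k ∈ range (n + 1), ((X.pr k).card : ℝ) / (q : ℝ) ^ k ≤
      ∑ j ∈ range n, ((j : ℝ) + 1)⁻¹ := by
    rw [sum_range_succ', pr_zero]
    simp only [card_empty, CharP.cast_eq_zero, zero_div, add_zero]
    refine sum_le_sum fun j _ => ?_
    have h2 : (((j + 1) * (X.pr (j + 1)).card : ℕ) : ℝ) ≤ (q : ℝ) ^ (j + 1) := by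
      exact_mod_cast hpnt (j + 1)
    push_cast at h2
    rw [div_le_iff₀ (by positivity), inv_mul_eq_div, le_div_iff₀ (by positivity)]
    linarith
  have h2 : ∑ j ∈ range n, ((j : ℝ) + 1)⁻¹ = ((harmonic n : ℚ) : ℝ) := by
    rw [harmonic]
    push_cast
    rfl
  have h3 : Real.log n ≤ Real.log (n + 1) := by
    rcases Nat.eq_zero_or_pos n with rfl | hn
    · simp
    · apply Real.log_le_log
      · exact_mod_cast hn
      · linarith
  linarith [harmonic_le_one_add_log n]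

theorem S_const (h : ℝ) (n : ℕ) :
    S X (fun _ => h) n = ∑ D ∈ X.sq n, h ^ D.card := by
  unfold S
  exact sum_congr rfl fun D _ => by rw [prod_const]

theorem exp_le {q : ℕ} (hpnt : ∀ k, k * (X.pr k).card ≤ q ^ k) (hq : 2 ≤ q) (h : ℝ)
    (h0 : 0 ≤ h) (n : ℕ) :
    Real.exp (∑ k ∈ range (n + 1), (∑ _p ∈ X.pr k, h) / (q : ℝ) ^ k) ≤
      Real.exp h * (n + 1 : ℝ) ^ h := by
  have h1 : ∑ k ∈ range (n + 1), (∑ _p ∈ X.pr k, h) / (q : ℝ) ^ k =
      h * ∑ k ∈ range (n + 1), ((X.pr k).card : ℝ) / (q : ℝ) ^ k := by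
    rw [mul_sum]
    refine sum_congr rfl fun k _ => ?_
    rw [sum_const, nsmul_eq_mul]
    ring
  have h2 : (0 : ℝ) < n + 1 := by positivity
  rw [h1, Real.rpow_def_of_pos h2, ← Real.exp_add]
  apply Real.exp_le_exp.mpr
  have h3 := mul_le_mul_of_nonneg_left (pr_sum_le X hpnt hq n) h0
  linarith

theorem pow_card_le {q : ℕ} (hpnt : ∀ k, k * (X.pr k).card ≤ q ^ k) (hq : 2 ≤ q) (h : ℝ)
    (h0 : 0 ≤ h) : ∃ C : ℝ, ∀ n : ℕ,
      ∑ D ∈ X.sq n, h ^ D.card ≤ C * (q : ℝ) ^ n * (n + 1 : ℝ) ^ (h - 1) ∧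
      ∑ k ∈ range (n + 1), (∑ D ∈ X.sq k, h ^ D.card) / (q : ℝ) ^ k ≤ C * (n + 1 : ℝ) ^ h := by
  have hq0 : (0 : ℝ) < q := by
    have : 0 < q := by omega
    exact_mod_cast this
  refine ⟨1 + 2 * h * Real.exp h + Real.exp h, fun n => ⟨?_, ?_⟩⟩
  · rw [← S_const]
    rcases Nat.eq_zero_or_pos n with rfl | hn
    · have h1 : X.sq 0 = {∅} := by
        ext D
        rw [X.mem_sq, mem_singleton]
        constructor
        · intro hD
          rw [Finset.eq_empty_iff_forall_notMem]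
          intro p hp
          have h4 : X.deg p ≤ X.dg D := single_le_sum (f := X.deg) (fun _ _ => Nat.zero_le _) hp
          have := X.deg_pos p
          omega
        · rintro rfl
          rfl
      have h2 : S X (fun _ => h) 0 = 1 := by
        rw [S, h1, sum_singleton, prod_empty]
      rw [h2]
      simp only [pow_zero, CharP.cast_eq_zero, zero_add, Real.one_rpow, mul_one]
      have : 0 ≤ 2 * h * Real.exp h := by positivity
      have := Real.exp_pos h
      linarith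
    · have h1 := mult_le X hpnt hq (fun _ => h) h h0 (fun _ => h0) (fun _ => le_rfl) n
      have h2 : Real.exp (∑ k ∈ range n, (∑ _p ∈ X.pr k, h) / (q : ℝ) ^ k) ≤
          Real.exp h * (n + 1 : ℝ) ^ h := by
        refine le_trans (Real.exp_le_exp.mpr ?_) (exp_le X hpnt hq h h0 n)
        rw [sum_range_succ]
        have : 0 ≤ (∑ _p ∈ X.pr n, h) / (q : ℝ) ^ n :=
          div_nonneg (sum_nonneg fun _ _ => h0) (by positivity)
        linarith
      have h3 : (n : ℝ) * S X (fun _ => h) n ≤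
          h * (q : ℝ) ^ n * (Real.exp h * (n + 1 : ℝ) ^ h) :=
        h1.trans (mul_le_mul_of_nonneg_left h2 (by positivity))
      have hn1 : (1 : ℝ) ≤ n := by exact_mod_cast hn
      have hpow : (n + 1 : ℝ) ^ h = (n + 1 : ℝ) ^ (h - 1) * (n + 1) := by
        conv_lhs => rw [show h = (h - 1) + 1 by ring]
        rw [Real.rpow_add_one (by positivity)]
      rw [hpow] at h3
      have hA : 0 ≤ h * (q : ℝ) ^ n * Real.exp h * (n + 1 : ℝ) ^ (h - 1) := by positivity
      have h4 : (n : ℝ) * S X (fun _ => h) n ≤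
          (n : ℝ) * (2 * (h * (q : ℝ) ^ n * Real.exp h * (n + 1 : ℝ) ^ (h - 1))) := by
        calc (n : ℝ) * S X (fun _ => h) n
            ≤ (h * (q : ℝ) ^ n * Real.exp h * (n + 1 : ℝ) ^ (h - 1)) * (n + 1) := by
              refine h3.trans (le_of_eq ?_)
              ring
          _ ≤ (h * (q : ℝ) ^ n * Real.exp h * (n + 1 : ℝ) ^ (h - 1)) * (2 * n) :=
              mul_le_mul_of_nonneg_left (by linarith) hA
          _ = _ := by ring
      have h5 : S X (fun _ => h) n ≤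
          2 * (h * (q : ℝ) ^ n * Real.exp h * (n + 1 : ℝ) ^ (h - 1)) :=
        le_of_mul_le_mul_left h4 (by linarith)
      refine h5.trans ?_
      have hB : 0 ≤ (1 + Real.exp h) * ((q : ℝ) ^ n * (n + 1 : ℝ) ^ (h - 1)) := by positivity
      calc 2 * (h * (q : ℝ) ^ n * Real.exp h * (n + 1 : ℝ) ^ (h - 1))
          ≤ 2 * (h * (q : ℝ) ^ n * Real.exp h * (n + 1 : ℝ) ^ (h - 1)) +
            (1 + Real.exp h) * ((q : ℝ) ^ n * (n + 1 : ℝ) ^ (h - 1)) := by linarith
        _ = _ := by ring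
  · have h1 := sum_le_exp X (fun _ => h) (fun _ => h0) (q := q) (by omega) (n + 1)
    simp only [S_const] at h1
    refine h1.trans ((exp_le X hpnt hq h h0 n).trans ?_)
    refine mul_le_mul_of_nonneg_right ?_ (by positivity)
    have : 0 ≤ 2 * h * Real.exp h := by positivity
    linarith

end

end B1B2

section

variable {ℓ : ℕ} [Fact ℓ.Prime] {σ : Type} [Fintype σ] [DecidableEq σ] (X : PData ℓ σ) {q : ℕ}

/-- B1: upper bound for sums of multiplicative functions -/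
theorem sum_mult_le (hpnt : ∀ k, k * (X.pr k).card ≤ q ^ k) (hq : 2 ≤ q) (h : X.P → ℝ) (H : ℝ)
    (hH0 : 0 ≤ H) (h0 : ∀ p, 0 ≤ h p) (hH : ∀ p, h p ≤ H) (n : ℕ) :
    n * ∑ D ∈ X.sq n, ∏ p ∈ D, h p ≤
      H * (q : ℝ) ^ n * Real.exp (∑ k ∈ range n, (∑ p ∈ X.pr k, h p) / (q : ℝ) ^ k) :=
  B1B2.mult_le X hpnt hq h H hH0 h0 hH n

/-- B2: constant multiplicative weights -/
theorem sum_pow_card_le (hpnt : ∀ k, k * (X.pr k).card ≤ q ^ k) (hq : 2 ≤ q) (h : ℝ)
    (h0 : 0 ≤ h) : ∃ C : ℝ, ∀ n : ℕ,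
      ∑ D ∈ X.sq n, h ^ D.card ≤ C * (q : ℝ) ^ n * (n + 1 : ℝ) ^ (h - 1) ∧
      ∑ k ∈ range (n + 1), (∑ D ∈ X.sq k, h ^ D.card) / (q : ℝ) ^ k ≤ C * (n + 1 : ℝ) ^ h :=
  B1B2.pow_card_le X hpnt hq h h0

end

end Pool.Agent.Helper54.PT
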